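import Mathlib
import Pool.Agent.H577R3.RM.Stmts

set_option autoImplicit false

/-! The window lemma. -/

namespace Pool.Agent.H3R3.RM

open Pool.Agent.H577R3.RM

/-- the inverse letter -/
def linv {n : ℕ} (a : Lt n) : Lt n := (a.1, !a.2)

/-- the letters may be adjacent -/
def Ok {n : ℕ} (a a' : Lt n) : Prop := a.1 = a'.1 → a.2 = a'.2

theorem ok_iff {n : ℕ} (a a' : Lt n) : Ok a a' ↔ a' ≠ linv a := by
  unfold Ok linv
  constructor
  · intro h he
    have h1 : a'.1 = a.1 := by rw [he]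
    have h2 : a'.2 = !a.2 := by rw [he]
    have h3 := h h1.symm
    rw [h2] at h3
    cases hb : a.2 <;> rw [hb] at h3 <;> simp at h3
  · intro h h1
    by_contra h2
    apply h
    apply Prod.ext
    · exact h1.symm
    · cases ha : a.2 <;> cases hb : a'.2 <;> simp_all

theorem ok_iff' {n : ℕ} (a a' : Lt n) : Ok a a' ↔ a ≠ linv a' := by
  unfold Ok linv
  constructor
  · intro h he
    have h1 : a.1 = a'.1 := by rw [he]
    have h2 : a.2 = !a'.2 := by rw [he]
    have h3 := h h1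
    rw [h2] at h3
    cases hb : a'.2 <;> rw [hb] at h3 <;> simp at h3
  · intro h h1
    by_contra h2
    apply h
    apply Prod.ext
    · exact h1
    · cases ha : a.2 <;> cases hb : a'.2 <;> simp_all

/-- put the word `x c y` at the place `s` -/
def repl {n ℓ b : ℕ} (s : ℕ) (w : Fin ℓ → Lt n) (v : Lt n × (Fin b → Lt n) × Lt n) :
    Fin ℓ → Lt n := fun i =>
  if i.1 < s then w i else if i.1 = s then v.1 else
    if h : i.1 - (s + 1) < b then v.2.1 ⟨i.1 - (s + 1), h⟩ else
      if i.1 = s + b + 1 then v.2.2 else w i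

/-- the part of the word at the place `s` -/
def part {n ℓ b : ℕ} (s : ℕ) (w : Fin ℓ → Lt n) (d : Lt n) : Lt n × (Fin b → Lt n) × Lt n :=
  (if h : s < ℓ then w ⟨s, h⟩ else d,
    (fun i : Fin b => if h : s + 1 + i.1 < ℓ then w ⟨s + 1 + i.1, h⟩ else d),
    if h : s + b + 1 < ℓ then w ⟨s + b + 1, h⟩ else d)

theorem repl_lt {n ℓ b : ℕ} {s : ℕ} {w : Fin ℓ → Lt n} {v : Lt n × (Fin b → Lt n) × Lt n}
    {i : Fin ℓ} (h : i.1 < s) : repl s w v i = w i := by
  simp [repl, h]

theorem repl_gt {n ℓ b : ℕ} {s : ℕ} {w : Fin ℓ → Lt n} {v : Lt n × (Fin b → Lt n) × Lt n}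
    {i : Fin ℓ} (h : s + b + 1 < i.1) : repl s w v i = w i := by
  have h1 : ¬ i.1 < s := by omega
  have h2 : ¬ i.1 = s := by omega
  have h3 : ¬ i.1 - (s + 1) < b := by omega
  have h4 : ¬ i.1 = s + b + 1 := by omega
  simp [repl, h1, h2, h3, h4]

theorem repl_fst {n ℓ b : ℕ} {s : ℕ} {w : Fin ℓ → Lt n} {v : Lt n × (Fin b → Lt n) × Lt n}
    {i : Fin ℓ} (h : i.1 = s) : repl s w v i = v.1 := by
  simp [repl, h]

theorem repl_mid {n ℓ b : ℕ} {s : ℕ} {w : Fin ℓ → Lt n} {v : Lt n × (Fin b → Lt n) × Lt n}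
    {i : Fin ℓ} {k : Fin b} (h : i.1 = s + 1 + k.1) : repl s w v i = v.2.1 k := by
  have hk := k.2
  have h1 : ¬ i.1 < s := by omega
  have h2 : ¬ i.1 = s := by omega
  have h3 : i.1 - (s + 1) < b := by omega
  have h4 : (⟨i.1 - (s + 1), h3⟩ : Fin b) = k := by
    apply Fin.ext
    simp only
    omega
  simp only [repl, h1, h2, h3, if_false, dif_pos]
  rw [h4]

theorem repl_lst {n ℓ b : ℕ} {s : ℕ} {w : Fin ℓ → Lt n} {v : Lt n × (Fin b → Lt n) × Lt n}
    {i : Fin ℓ} (h : i.1 = s + b + 1) : repl s w v i = v.2.2 := by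
  have h1 : ¬ i.1 < s := by omega
  have h2 : ¬ i.1 = s := by omega
  have h3 : ¬ i.1 - (s + 1) < b := by omega
  unfold repl
  rw [if_neg h1, if_neg h2, dif_neg h3, if_pos h]

/-- the old word is recovered -/
theorem repl_part {n ℓ b : ℕ} (s : ℕ) (w : Fin ℓ → Lt n) (v : Lt n × (Fin b → Lt n) × Lt n)
    (d : Lt n) : repl s (repl s w v) (part (b := b) s w d) = w := by
  funext i
  by_cases h1 : i.1 < s
  · rw [repl_lt h1, repl_lt h1]
  by_cases h2 : i.1 = s
  · rw [repl_fst h2]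
    have h3 : s < ℓ := h2 ▸ i.2
    have h4 : (⟨s, h3⟩ : Fin ℓ) = i := Fin.ext h2.symm
    simp only [part, h3, dif_pos, h4]
  by_cases h3 : i.1 < s + 1 + b
  · have h5 : i.1 - (s + 1) < b := by omega
    have h4 : i.1 = s + 1 + (⟨i.1 - (s + 1), h5⟩ : Fin b).1 := by
      simp only
      omega
    rw [repl_mid h4]
    have h6 : s + 1 + (i.1 - (s + 1)) < ℓ := by
      have := i.2
      omega
    have h7 : (⟨s + 1 + (i.1 - (s + 1)), h6⟩ : Fin ℓ) = i := by
      apply Fin.ext
      simp only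
      omega
    simp only [part, h6, dif_pos, h7]
  by_cases h4 : i.1 = s + b + 1
  · rw [repl_lst h4]
    have h5 : s + b + 1 < ℓ := h4 ▸ i.2
    have h6 : (⟨s + b + 1, h5⟩ : Fin ℓ) = i := Fin.ext h4.symm
    simp only [part, h5, dif_pos, h6]
  · have h5 : s + b + 1 < i.1 := by omega
    rw [repl_gt h5, repl_gt h5]

/-- the new filling is recovered -/
theorem part_repl {n ℓ b : ℕ} (s : ℕ) (w : Fin ℓ → Lt n) (v : Lt n × (Fin b → Lt n) × Lt n)
    (d : Lt n) (hl : s + b + 2 ≤ ℓ) : part (b := b) s (repl s w v) d = v := by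
  have e0 : s < ℓ := by omega
  have e1 : s + b + 1 < ℓ := by omega
  have e2 : ∀ i : Fin b, s + 1 + i.1 < ℓ := fun i => by have := i.2; omega
  obtain ⟨v1, v2, v3⟩ := v
  apply Prod.ext
  · simp only [part, e0, dif_pos]
    exact repl_fst rfl
  · apply Prod.ext
    · funext i
      simp only [part, e2 i, dif_pos]
      exact repl_mid rfl
    · simp only [part, e1, dif_pos]
      exact repl_lst rfl

theorem isRed_iff {n ℓ : ℕ} (w : Fin ℓ → Lt n) :
    IsRed w ↔ ∀ i : ℕ, ∀ h : i + 1 < ℓ, Ok (w ⟨i, by omega⟩) (w ⟨i + 1, h⟩) := by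
  constructor
  · intro h i hi
    exact h ⟨i, by omega⟩ ⟨i + 1, hi⟩ rfl
  · intro h i j hij
    have hj : i.1 + 1 < ℓ := hij ▸ j.2
    have h1 := h i.1 hj
    have h2 : (⟨i.1 + 1, hj⟩ : Fin ℓ) = j := Fin.ext hij
    rw [h2] at h1
    exact h1

/-- the neighbour of the window on the left -/
def lnb {n ℓ : ℕ} (s : ℕ) (w : Fin ℓ → Lt n) (d : Lt n) : Lt n :=
  if h : s - 1 < ℓ then w ⟨s - 1, h⟩ else d

/-- the neighbour of the window on the right -/
def rnb {n ℓ : ℕ} (s b : ℕ) (w : Fin ℓ → Lt n) (d : Lt n) : Lt n :=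
  if h : s + b + 2 < ℓ then w ⟨s + b + 2, h⟩ else d

theorem isRed_repl {n ℓ b : ℕ} {s : ℕ} {w : Fin ℓ → Lt n} {d : Lt n}
    {x y : Lt n} {c : Fin b → Lt n} (hb : 1 ≤ b) (hw : IsRed w) (hc : IsRed c)
    (hx1 : Ok (lnb s w d) x) (hx2 : Ok x (c ⟨0, by omega⟩)) (hy1 : Ok (c ⟨b - 1, by omega⟩) y)
    (hy2 : Ok y (rnb s b w d)) : IsRed (repl s w (x, c, y)) := by
  rw [isRed_iff] at hw hc ⊢
  intro i hi
  have hi0 : i < ℓ := by omega
  by_cases h1 : i + 1 < s
  · rw [repl_lt (i := ⟨i, hi0⟩) (show i < s by omega), repl_lt (i := ⟨i + 1, hi⟩) h1]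
    exact hw i hi
  by_cases h2 : i + 1 = s
  · rw [repl_lt (i := ⟨i, hi0⟩) (show i < s by omega), repl_fst (i := ⟨i + 1, hi⟩) h2]
    have h3 : s - 1 < ℓ := by omega
    have h4 : (⟨s - 1, h3⟩ : Fin ℓ) = ⟨i, hi0⟩ := by
      apply Fin.ext
      simp only
      omega
    have h5 : lnb s w d = w ⟨i, hi0⟩ := by simp only [lnb, h3, dif_pos, h4]
    rw [← h5]
    exact hx1
  by_cases h3 : i = s
  · rw [repl_fst (i := ⟨i, hi0⟩) h3,
      repl_mid (i := ⟨i + 1, hi⟩) (k := ⟨0, by omega⟩) (show i + 1 = s + 1 + 0 by omega)]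
    exact hx2
  by_cases h4 : i + 1 < s + 1 + b
  · have h5 : i - (s + 1) + 1 < b := by omega
    rw [repl_mid (i := ⟨i, hi0⟩) (k := ⟨i - (s + 1), by omega⟩)
        (show i = s + 1 + (i - (s + 1)) by omega),
      repl_mid (i := ⟨i + 1, hi⟩) (k := ⟨i - (s + 1) + 1, h5⟩)
        (show i + 1 = s + 1 + (i - (s + 1) + 1) by omega)]
    exact hc _ h5
  by_cases h5 : i + 1 = s + b + 1
  · rw [repl_mid (i := ⟨i, hi0⟩) (k := ⟨b - 1, by omega⟩) (show i = s + 1 + (b - 1) by omega),
      repl_lst (i := ⟨i + 1, hi⟩) h5]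
    exact hy1
  by_cases h6 : i = s + b + 1
  · rw [repl_lst (i := ⟨i, hi0⟩) h6, repl_gt (i := ⟨i + 1, hi⟩) (show s + b + 1 < i + 1 by omega)]
    have h7 : s + b + 2 < ℓ := by omega
    have h8 : (⟨s + b + 2, h7⟩ : Fin ℓ) = ⟨i + 1, hi⟩ := by
      apply Fin.ext
      simp only
      omega
    have h9 : rnb s b w d = w ⟨i + 1, hi⟩ := by simp only [rnb, h7, dif_pos, h8]
    rw [← h9]
    exact hy2
  · rw [repl_gt (i := ⟨i, hi0⟩) (show s + b + 1 < i by omega),
      repl_gt (i := ⟨i + 1, hi⟩) (show s + b + 1 < i + 1 by omega)]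
    exact hw i hi

theorem card_Lt (n : ℕ) : Fintype.card (Lt n) = 2 * n := by
  simp [Fintype.card_prod, mul_comm]

open Classical in
theorem card_X {n : ℕ} (p q : Lt n) :
    2 * n - 2 ≤ (Finset.univ.filter (fun x : Lt n => Ok p x ∧ Ok x q)).card := by
  have h1 : (Finset.univ \ {linv p, linv q} : Finset (Lt n)) ⊆
      Finset.univ.filter (fun x : Lt n => Ok p x ∧ Ok x q) := by
    intro x hx
    simp only [Finset.mem_sdiff, Finset.mem_univ, true_and, Finset.mem_insert,
      Finset.mem_singleton, not_or] at hx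
    simp only [Finset.mem_filter, Finset.mem_univ, true_and]
    exact ⟨(ok_iff _ _).2 hx.1, (ok_iff' _ _).2 hx.2⟩
  refine le_trans ?_ (Finset.card_le_card h1)
  have h2 := Finset.le_card_sdiff ({linv p, linv q} : Finset (Lt n)) Finset.univ
  rw [Finset.card_univ, card_Lt] at h2
  have h3 : ({linv p, linv q} : Finset (Lt n)).card ≤ 2 := Finset.card_le_two
  omega

open Classical in
theorem card_Y {n : ℕ} (q : Lt n) :
    (Finset.univ.filter (fun x : Lt n => Ok x q)).card = 2 * n - 1 := by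
  have h1 : Finset.univ.filter (fun x : Lt n => Ok x q) = Finset.univ.erase (linv q) := by
    ext x
    simp [ok_iff']
  rw [h1, Finset.card_erase_of_mem (Finset.mem_univ _), Finset.card_univ, card_Lt]

open Classical in
theorem card_Y' {n : ℕ} (q : Lt n) :
    (Finset.univ.filter (fun x : Lt n => Ok q x)).card = 2 * n - 1 := by
  have h1 : Finset.univ.filter (fun x : Lt n => Ok q x) = Finset.univ.erase (linv q) := by
    ext x
    simp [ok_iff]
  rw [h1, Finset.card_erase_of_mem (Finset.mem_univ _), Finset.card_univ, card_Lt]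

/-- the words avoiding `G` in the windows from `H` -/
def Av {n ℓ b : ℕ} (G : Finset (Fin b → Lt n)) (H : Finset ℕ) (w : Fin ℓ → Lt n) : Prop :=
  IsRed w ∧ ∀ t ∈ H, ∀ c ∈ G, ¬ At w (t * (b + 2) + 1) c

theorem at_repl_other {n ℓ b : ℕ} {t0 t : ℕ} (ht : t ≠ t0) (w : Fin ℓ → Lt n)
    (v : Lt n × (Fin b → Lt n) × Lt n) (c : Fin b → Lt n) :
    At (repl (t0 * (b + 2)) w v) (t * (b + 2) + 1) c ↔ At w (t * (b + 2) + 1) c := by
  have key : ∀ i : Fin b, ∀ h : t * (b + 2) + 1 + i.1 < ℓ,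
      repl (t0 * (b + 2)) w v ⟨t * (b + 2) + 1 + i.1, h⟩ = w ⟨t * (b + 2) + 1 + i.1, h⟩ := by
    intro i h
    have hi := i.2
    rcases lt_or_gt_of_ne ht with h1 | h1
    · apply repl_lt
      have h2 : (t + 1) * (b + 2) ≤ t0 * (b + 2) := Nat.mul_le_mul_right _ h1
      rw [Nat.add_mul, Nat.one_mul] at h2
      simp only
      omega
    · apply repl_gt
      have h2 : (t0 + 1) * (b + 2) ≤ t * (b + 2) := Nat.mul_le_mul_right _ h1
      rw [Nat.add_mul, Nat.one_mul] at h2
      simp only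
      omega
  unfold At
  constructor
  · intro h i
    obtain ⟨h1, h2⟩ := h i
    exact ⟨h1, by rw [← key i h1]; exact h2⟩
  · intro h i
    obtain ⟨h1, h2⟩ := h i
    exact ⟨h1, by rw [key i h1]; exact h2⟩

open Classical in
theorem step_count {n b ℓ κ : ℕ} {G : Finset (Fin b → Lt n)} {H : Finset ℕ} {t0 : ℕ}
    (hn : 2 ≤ n) (hb : 1 ≤ b) (hG : ∀ c ∈ G, IsRed c)
    (hR : (Finset.univ.filter (fun c : Fin b → Lt n => IsRed c)).card ≤ κ * G.card)
    (hG0 : 0 < G.card) (ht0 : t0 ∉ H) (hl : (t0 + 1) * (b + 2) ≤ ℓ) :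
    (Finset.univ.filter (fun w : Fin ℓ → Lt n => Av G H w)).card ≤
      4 * κ * (Finset.univ.filter (fun w : Fin ℓ → Lt n => Av G H w ∧
        ∃ c ∈ G, At w (t0 * (b + 2) + 1) c)).card := by
  set s := t0 * (b + 2) with hs
  have hl' : s + b + 2 ≤ ℓ := by
    rw [Nat.add_mul, Nat.one_mul] at hl
    omega
  set A := Finset.univ.filter (fun w : Fin ℓ → Lt n => Av G H w) with hA
  set B := Finset.univ.filter (fun w : Fin ℓ → Lt n => Av G H w ∧ ∃ c ∈ G, At w (s + 1) c) with hB
  let d : Lt n := (⟨0, by omega⟩, true)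
  let i0 : Fin b := ⟨0, by omega⟩
  let i1 : Fin b := ⟨b - 1, by omega⟩
  -- the possible fillings
  let W : (Fin ℓ → Lt n) → Finset (Lt n × (Fin b → Lt n) × Lt n) := fun w =>
    Finset.univ.filter (fun v => v.2.1 ∈ G ∧ IsRed (repl s w v))
  let V : Finset (Lt n × (Fin b → Lt n) × Lt n) :=
    Finset.univ.filter (fun v => IsRed v.2.1 ∧ Ok v.1 (v.2.1 i0) ∧ Ok (v.2.1 i1) v.2.2)
  let P := A.sigma W
  -- lower bound for the fillings
  have hW : ∀ w ∈ A, (2 * n - 2) * (2 * n - 2) * G.card ≤ (W w).card := by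
    intro w hw
    rw [hA, Finset.mem_filter] at hw
    have hw1 : IsRed w := hw.2.1
    have h1 : (G.sigma (fun c => (Finset.univ.filter (fun x : Lt n => Ok (lnb s w d) x ∧ Ok x (c i0)))
        ×ˢ (Finset.univ.filter (fun y : Lt n => Ok (c i1) y ∧ Ok y (rnb s b w d))))).card ≤
        (W w).card := by
      apply Finset.card_le_card_of_injOn (fun p => (p.2.1, p.1, p.2.2))
      · intro p hp
        rw [Finset.mem_coe, Finset.mem_sigma, Finset.mem_product, Finset.mem_filter,
          Finset.mem_filter] at hp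
        obtain ⟨hc, ⟨_, hx1, hx2⟩, ⟨_, hy1, hy2⟩⟩ := hp
        rw [Finset.mem_coe, Finset.mem_filter]
        exact ⟨Finset.mem_univ _, hc, isRed_repl hb hw1 (hG _ hc) hx1 hx2 hy1 hy2⟩
      · intro p _ q _ hpq
        obtain ⟨p1, p2, p3⟩ := p
        obtain ⟨q1, q2, q3⟩ := q
        simp only [Prod.mk.injEq] at hpq
        obtain ⟨h1, h2, h3⟩ := hpq
        subst h1 h2 h3
        rfl
    refine le_trans ?_ h1
    rw [Finset.card_sigma]
    have h2 : ∀ c ∈ G, (2 * n - 2) * (2 * n - 2) ≤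
        ((Finset.univ.filter (fun x : Lt n => Ok (lnb s w d) x ∧ Ok x (c i0))) ×ˢ
        (Finset.univ.filter (fun y : Lt n => Ok (c i1) y ∧ Ok y (rnb s b w d)))).card := by
      intro c _
      rw [Finset.card_product]
      exact Nat.mul_le_mul (card_X _ _) (card_X _ _)
    calc (2 * n - 2) * (2 * n - 2) * G.card = G.card • ((2 * n - 2) * (2 * n - 2)) := by
          rw [smul_eq_mul]; ring
      _ ≤ _ := Finset.card_nsmul_le_sum _ _ _ h2
  -- upper bound for the old fillings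
  have hV : V.card ≤ (2 * n - 1) * (2 * n - 1) * (κ * G.card) := by
    have h1 : V.card ≤ ((Finset.univ.filter (fun c : Fin b → Lt n => IsRed c)).sigma (fun c =>
        (Finset.univ.filter (fun x : Lt n => Ok x (c i0))) ×ˢ
        (Finset.univ.filter (fun y : Lt n => Ok (c i1) y)))).card := by
      apply Finset.card_le_card_of_injOn (fun v => ⟨v.2.1, (v.1, v.2.2)⟩)
      · intro v hv
        rw [Finset.mem_coe, Finset.mem_filter] at hv
        rw [Finset.mem_coe, Finset.mem_sigma, Finset.mem_product, Finset.mem_filter,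
          Finset.mem_filter, Finset.mem_filter]
        exact ⟨⟨Finset.mem_univ _, hv.2.1⟩, ⟨Finset.mem_univ _, hv.2.2.1⟩,
          ⟨Finset.mem_univ _, hv.2.2.2⟩⟩
      · intro v _ u _ huv
        obtain ⟨v1, v2, v3⟩ := v
        obtain ⟨u1, u2, u3⟩ := u
        simp only [Sigma.mk.injEq, heq_eq_eq, Prod.mk.injEq] at huv
        obtain ⟨h1, h2, h3⟩ := huv
        subst h1 h2 h3
        rfl
    refine le_trans h1 ?_
    rw [Finset.card_sigma]
    have h2 : ∀ c ∈ (Finset.univ.filter (fun c : Fin b → Lt n => IsRed c)),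
        ((Finset.univ.filter (fun x : Lt n => Ok x (c i0))) ×ˢ
        (Finset.univ.filter (fun y : Lt n => Ok (c i1) y))).card ≤ (2 * n - 1) * (2 * n - 1) := by
      intro c _
      rw [Finset.card_product, card_Y, card_Y']
    refine le_trans (Finset.sum_le_card_nsmul _ _ _ h2) ?_
    rw [smul_eq_mul, mul_comm]
    exact Nat.mul_le_mul_left _ hR
  -- the injection
  have hinj : P.card ≤ (B ×ˢ V).card := by
    apply Finset.card_le_card_of_injOn (fun p => (repl s p.1 p.2, part (b := b) s p.1 d))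
    · intro p hp
      rw [Finset.mem_coe, Finset.mem_sigma, hA, Finset.mem_filter, Finset.mem_filter] at hp
      obtain ⟨⟨_, hw1, hw2⟩, _, hv1, hv2⟩ := hp
      rw [Finset.mem_coe, Finset.mem_product]
      constructor
      · rw [hB, Finset.mem_filter]
        refine ⟨Finset.mem_univ _, ⟨hv2, ?_⟩, ⟨p.2.2.1, hv1, ?_⟩⟩
        · intro t ht c hc hat
          have hne : t ≠ t0 := fun h => ht0 (h ▸ ht)
          exact hw2 t ht c hc ((at_repl_other hne p.1 p.2 c).1 hat)
        · intro i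
          have hi := i.2
          have h3 : s + 1 + i.1 < ℓ := by omega
          exact ⟨h3, repl_mid (i := ⟨s + 1 + i.1, h3⟩) rfl⟩
      · rw [Finset.mem_filter]
        have e0 : s < ℓ := by omega
        have e1 : s + b + 1 < ℓ := by omega
        have e2 : ∀ i : Fin b, s + 1 + i.1 < ℓ := fun i => by have := i.2; omega
        have p1 : (part (b := b) s p.1 d).1 = p.1 ⟨s, e0⟩ := by simp only [part, e0, dif_pos]
        have p2 : ∀ i, (part (b := b) s p.1 d).2.1 i = p.1 ⟨s + 1 + i.1, e2 i⟩ := by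
          intro i
          simp only [part, e2 i, dif_pos]
        have p3 : (part (b := b) s p.1 d).2.2 = p.1 ⟨s + b + 1, e1⟩ := by
          simp only [part, e1, dif_pos]
        refine ⟨Finset.mem_univ _, ?_, ?_, ?_⟩
        · intro i j hij
          rw [p2, p2]
          exact hw1 _ _ (by simp only; omega)
        · rw [p1, p2]
          exact hw1 _ _ rfl
        · rw [p2, p3]
          exact hw1 _ _ (by
            show s + 1 + (b - 1) + 1 = s + b + 1
            omega)
    · intro p _ q _ hpq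
      obtain ⟨p1, p2⟩ := p
      obtain ⟨q1, q2⟩ := q
      simp only [Prod.mk.injEq] at hpq
      obtain ⟨h1, h2⟩ := hpq
      have h3 : p1 = q1 := by
        rw [← repl_part (b := b) s p1 p2 d, ← repl_part (b := b) s q1 q2 d, h1, h2]
      subst h3
      have h4 : p2 = q2 := by
        rw [← part_repl (b := b) s p1 p2 d hl', ← part_repl (b := b) s p1 q2 d hl', h1]
      subst h4
      rfl
  have hP : A.card * ((2 * n - 2) * (2 * n - 2) * G.card) ≤ P.card := by
    rw [Finset.card_sigma, ← smul_eq_mul]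
    exact Finset.card_nsmul_le_sum _ _ _ hW
  rw [Finset.card_product] at hinj
  have h1 : A.card * ((2 * n - 2) * (2 * n - 2) * G.card) ≤
      B.card * ((2 * n - 1) * (2 * n - 1) * (κ * G.card)) :=
    hP.trans (hinj.trans (Nat.mul_le_mul_left _ hV))
  have h2 : 2 * n - 1 ≤ 2 * (2 * n - 2) := by omega
  have h3 : (2 * n - 1) * (2 * n - 1) ≤ 4 * ((2 * n - 2) * (2 * n - 2)) := by
    calc (2 * n - 1) * (2 * n - 1) ≤ (2 * (2 * n - 2)) * (2 * (2 * n - 2)) := Nat.mul_le_mul h2 h2
      _ = 4 * ((2 * n - 2) * (2 * n - 2)) := by ring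
  have h4 : 0 < (2 * n - 2) * (2 * n - 2) * G.card := by
    have : 0 < 2 * n - 2 := by omega
    positivity
  have h5 : A.card * ((2 * n - 2) * (2 * n - 2) * G.card) ≤
      (4 * κ * B.card) * ((2 * n - 2) * (2 * n - 2) * G.card) := by
    calc A.card * ((2 * n - 2) * (2 * n - 2) * G.card)
        ≤ B.card * ((2 * n - 1) * (2 * n - 1) * (κ * G.card)) := h1
      _ ≤ B.card * (4 * ((2 * n - 2) * (2 * n - 2)) * (κ * G.card)) :=
          Nat.mul_le_mul_left _ (Nat.mul_le_mul_right _ h3)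
      _ = (4 * κ * B.card) * ((2 * n - 2) * (2 * n - 2) * G.card) := by ring
  exact Nat.le_of_mul_le_mul_right h5 h4

open Classical in
theorem av_split {n b ℓ : ℕ} {G : Finset (Fin b → Lt n)} {H : Finset ℕ} {t0 : ℕ}
    (_ht0 : t0 ∉ H) :
    (Finset.univ.filter (fun w : Fin ℓ → Lt n => Av G H w ∧
        ∃ c ∈ G, At w (t0 * (b + 2) + 1) c)).card +
      (Finset.univ.filter (fun w : Fin ℓ → Lt n => Av G (insert t0 H) w)).card =
      (Finset.univ.filter (fun w : Fin ℓ → Lt n => Av G H w)).card := by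
  have h1 : Finset.univ.filter (fun w : Fin ℓ → Lt n => Av G (insert t0 H) w) =
      (Finset.univ.filter (fun w : Fin ℓ → Lt n => Av G H w)).filter
        (fun w => ¬ ∃ c ∈ G, At w (t0 * (b + 2) + 1) c) := by
    rw [Finset.filter_filter]
    apply Finset.filter_congr
    intro w _
    unfold Av
    constructor
    · rintro ⟨h1, h2⟩
      refine ⟨⟨h1, fun t ht => h2 t (Finset.mem_insert_of_mem ht)⟩, ?_⟩
      rintro ⟨c, hc, hat⟩
      exact h2 t0 (Finset.mem_insert_self _ _) c hc hat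
    · rintro ⟨⟨h1, h2⟩, h3⟩
      refine ⟨h1, ?_⟩
      intro t ht c hc hat
      rcases Finset.mem_insert.1 ht with h4 | h4
      · subst h4
        exact h3 ⟨c, hc, hat⟩
      · exact h2 t h4 c hc hat
  have h2 : Finset.univ.filter (fun w : Fin ℓ → Lt n => Av G H w ∧
        ∃ c ∈ G, At w (t0 * (b + 2) + 1) c) =
      (Finset.univ.filter (fun w : Fin ℓ → Lt n => Av G H w)).filter
        (fun w => ∃ c ∈ G, At w (t0 * (b + 2) + 1) c) := by
    rw [Finset.filter_filter]
  rw [h1, h2]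
  exact Finset.card_filter_add_card_filter_not _

open Classical in
theorem av_count {n b ℓ κ : ℕ} {G : Finset (Fin b → Lt n)}
    (hn : 2 ≤ n) (hb : 1 ≤ b) (hG : ∀ c ∈ G, IsRed c)
    (hR : (Finset.univ.filter (fun c : Fin b → Lt n => IsRed c)).card ≤ κ * G.card)
    (hG0 : 0 < G.card) (hκ : 1 ≤ κ) (H : Finset ℕ) :
    (∀ t ∈ H, (t + 1) * (b + 2) ≤ ℓ) →
    (Finset.univ.filter (fun w : Fin ℓ → Lt n => Av G H w)).card * (4 * κ) ^ H.card ≤
      (4 * κ - 1) ^ H.card * (Finset.univ.filter (fun w : Fin ℓ → Lt n => IsRed w)).card := by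
  induction H using Finset.induction_on with
  | empty =>
    intro _
    have h : (Finset.univ.filter (fun w : Fin ℓ → Lt n => Av G ∅ w)) =
        (Finset.univ.filter (fun w : Fin ℓ → Lt n => IsRed w)) := by
      ext w
      simp [Av]
    rw [h]
    simp
  | insert t0 H ht0 ih =>
    intro hl
    have ih' := ih (fun t ht => hl t (Finset.mem_insert_of_mem ht))
    have hs := step_count hn hb hG hR hG0 ht0 (hl t0 (Finset.mem_insert_self _ _)) (H := H)
    set a := (Finset.univ.filter (fun w : Fin ℓ → Lt n => Av G H w)).card with ha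
    set c := (Finset.univ.filter (fun w : Fin ℓ → Lt n => Av G H w ∧
        ∃ c ∈ G, At w (t0 * (b + 2) + 1) c)).card with hc
    set e := (Finset.univ.filter (fun w : Fin ℓ → Lt n => Av G (insert t0 H) w)).card with he
    have hsum : c + e = a := av_split ht0
    have h1 : e * (4 * κ) ≤ (4 * κ - 1) * a := by
      have h2 : (4 * κ - 1) * a + a = 4 * κ * a := by
        rw [Nat.sub_mul, Nat.one_mul]
        apply Nat.sub_add_cancel
        calc a = 1 * a := (Nat.one_mul a).symm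
          _ ≤ 4 * κ * a := Nat.mul_le_mul_right _ (by omega)
      have h3 : 4 * κ * a = 4 * κ * c + 4 * κ * e := by rw [← hsum]; ring
      have h4 : e * (4 * κ) = 4 * κ * e := by ring
      omega
    rw [Finset.card_insert_of_notMem ht0, pow_succ, pow_succ]
    calc e * ((4 * κ) ^ H.card * (4 * κ)) = (e * (4 * κ)) * (4 * κ) ^ H.card := by ring
      _ ≤ ((4 * κ - 1) * a) * (4 * κ) ^ H.card := Nat.mul_le_mul_right _ h1
      _ = (4 * κ - 1) * (a * (4 * κ) ^ H.card) := by ring
      _ ≤ (4 * κ - 1) * ((4 * κ - 1) ^ H.card *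
          (Finset.univ.filter (fun w : Fin ℓ → Lt n => IsRed w)).card) :=
          Nat.mul_le_mul_left _ ih'
      _ = _ := by ring

open Classical in
theorem card_RW' (n ℓ : ℕ) (P : (Fin ℓ → Lt n) → Prop) :
    Nat.card {w : RW n ℓ // P w.1} =
      (Finset.univ.filter (fun w : Fin ℓ → Lt n => IsRed w ∧ P w)).card := by
  rw [Nat.card_congr (Equiv.subtypeSubtypeEquivSubtypeInter (fun w : Fin ℓ → Lt n => IsRed w) P),
    Nat.card_eq_fintype_card, Fintype.card_subtype]

open Classical in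
theorem card_RW (n ℓ : ℕ) :
    Nat.card (RW n ℓ) = (Finset.univ.filter (fun w : Fin ℓ → Lt n => IsRed w)).card := by
  rw [Nat.card_eq_fintype_card, Fintype.card_subtype]

theorem taskWL : TaskWL := by
  classical
  intro n b ℓ κ G H hn hb hG hR hl
  rw [card_RW] at hR
  have hpos : 0 < (Finset.univ.filter (fun c : Fin b → Lt n => IsRed c)).card := by
    apply Finset.card_pos.2
    refine ⟨fun _ => (⟨0, by omega⟩, true), ?_⟩
    rw [Finset.mem_filter]
    exact ⟨Finset.mem_univ _, fun i j _ _ => rfl⟩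
  have hG0 : 0 < G.card := by
    rcases Nat.eq_zero_or_pos G.card with h | h
    · rw [h, Nat.mul_zero] at hR
      omega
    · exact h
  have hκ : 1 ≤ κ := by
    rcases Nat.eq_zero_or_pos κ with h | h
    · rw [h, Nat.zero_mul] at hR
      omega
    · exact h
  rw [card_RW n ℓ, card_RW' n ℓ (fun w => ∀ t ∈ H, ∀ c ∈ G, ¬ At w (t * (b + 2) + 1) c)]
  have := av_count (ℓ := ℓ) hn hb hG hR hG0 hκ H hl
  unfold Av at this
  convert this using 2
  apply congrArg
  ext w
  simp only [Finset.mem_filter]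

end Pool.Agent.H3R3.RM
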